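import Pool.Agent.K3h20.CR.Stm2

/-!
# CR2 brick ATT: attracting cycles of the quadratic polynomial persist
-/

set_option autoImplicit false

open Set Filter Topology MeasureTheory Metric

namespace Pool.Agent.K3h12.CR

open Pool.Agent.K3h20.CR

theorem contf (c₀ : ℂ) (i : ℕ) : Continuous (fun z : ℂ => z ^ 2 + c₀)^[i] :=
  Continuous.iterate (by fun_prop) i

theorem difff (c₀ : ℂ) (i : ℕ) : Differentiable ℂ (fun z : ℂ => z ^ 2 + c₀)^[i] := by
  induction i with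
  | zero => exact differentiable_id
  | succ i ih =>
    rw [Function.iterate_succ']
    exact Differentiable.comp (by fun_prop) ih

theorem contdf (c₀ : ℂ) (i : ℕ) : Continuous (deriv (fun z : ℂ => z ^ 2 + c₀)^[i]) :=
  ((difff c₀ i).contDiff (n := 1)).continuous_deriv le_rfl

theorem deriv_succ (c₀ : ℂ) (i : ℕ) (U : ℂ) : deriv (fun z : ℂ => z ^ 2 + c₀)^[i + 1] U =
    2 * (fun z : ℂ => z ^ 2 + c₀)^[i] U * deriv (fun z : ℂ => z ^ 2 + c₀)^[i] U := by
  have h1 := ((difff c₀ i) U).hasDerivAt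
  have h2 := (h1.pow 2).add_const c₀
  have h3 : (fun z : ℂ => z ^ 2 + c₀)^[i + 1] =
      fun x => ((fun z : ℂ => z ^ 2 + c₀)^[i] x) ^ 2 + c₀ := by
    rw [Function.iterate_succ']
    rfl
  rw [h3]
  have h4 := h2.deriv
  simpa using h4

/-- iterates of perturbations of `z ^ 2 + c₀` -/
theorem iter_close (c₀ : ℂ) (R : ℝ) (i : ℕ) : ∀ ε : ℝ, 0 < ε → ∃ K η : ℝ, 0 < η ∧
    ∀ F F' : ℂ → ℂ, (∀ U : ℂ, ‖U‖ ≤ K → HasDerivAt F (F' U) U ∧ ‖F U - (U ^ 2 + c₀)‖ ≤ η ∧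
      ‖F' U - 2 * U‖ ≤ η) → ∀ U : ℂ, ‖U‖ ≤ R → (∀ j < i, ‖F^[j] U‖ ≤ K) ∧
      ‖F^[i] U - (fun z : ℂ => z ^ 2 + c₀)^[i] U‖ ≤ ε ∧
      ∃ D : ℂ, HasDerivAt F^[i] D U ∧ ‖D - deriv (fun z : ℂ => z ^ 2 + c₀)^[i] U‖ ≤ ε := by
  induction i with
  | zero =>
    intro ε hε
    refine ⟨0, 1, one_pos, fun F F' _ U _ => ⟨fun j hj => absurd hj (Nat.not_lt_zero j), ?_,
      1, ?_, ?_⟩⟩
    · simp [hε.le]
    · simpa using hasDerivAt_id U
    · simp [hε.le]
  | succ i ih =>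
    intro ε hε
    -- bounds on the ball of radius `R`
    obtain ⟨M, hM⟩ := (isCompact_closedBall (0 : ℂ) R).exists_bound_of_continuousOn
      (contf c₀ i).continuousOn
    obtain ⟨N, hN⟩ := (isCompact_closedBall (0 : ℂ) R).exists_bound_of_continuousOn
      (contdf c₀ i).continuousOn
    set A : ℝ := 2 * |M| + |N| + 2 with hA
    have hA0 : 0 < A := by positivity
    have hA1 : 1 ≤ A := by
      have := abs_nonneg M
      have := abs_nonneg N
      linarith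
    set ε' : ℝ := min 1 (ε / (4 * A)) with hε'
    have hε'0 : 0 < ε' := lt_min one_pos (by positivity)
    have hε'1 : ε' ≤ 1 := min_le_left _ _
    have hε'2 : ε' * A ≤ ε / 4 := by
      have h : ε' ≤ ε / (4 * A) := min_le_right _ _
      calc ε' * A ≤ ε / (4 * A) * A := mul_le_mul_of_nonneg_right h hA0.le
        _ = ε / 4 := by field_simp
    obtain ⟨K₁, η₁, hη₁, h₁⟩ := ih ε' hε'0
    refine ⟨max K₁ (|M| + 1), min η₁ ε', lt_min hη₁ hε'0, fun F F' hF U hU => ?_⟩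
    obtain ⟨hb, hc, D, hD, hDc⟩ := h₁ F F' (fun V hV => by
      obtain ⟨q1, q2, q3⟩ := hF V (hV.trans (le_max_left _ _))
      exact ⟨q1, q2.trans (min_le_left _ _), q3.trans (min_le_left _ _)⟩) U hU
    have hUm : U ∈ closedBall (0 : ℂ) R := by simpa using hU
    have hMU := (hM U hUm).trans (le_abs_self M)
    have hNU := (hN U hUm).trans (le_abs_self N)
    set V := F^[i] U with hV
    set v := (fun z : ℂ => z ^ 2 + c₀)^[i] U with hv
    set E := deriv (fun z : ℂ => z ^ 2 + c₀)^[i] U with hE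
    have hVM : ‖V‖ ≤ |M| + 1 := by
      calc ‖V‖ = ‖(V - v) + v‖ := by ring_nf
        _ ≤ ‖V - v‖ + ‖v‖ := norm_add_le _ _
        _ ≤ 1 + |M| := add_le_add (hc.trans hε'1) hMU
        _ = _ := by ring
    obtain ⟨q1, q2, q3⟩ := hF V (hVM.trans (le_max_right _ _))
    have q2' : ‖F V - (V ^ 2 + c₀)‖ ≤ ε' := q2.trans (min_le_right _ _)
    have q3' : ‖F' V - 2 * V‖ ≤ ε' := q3.trans (min_le_right _ _)
    have hM0 := abs_nonneg M
    have hN0 := abs_nonneg N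
    refine ⟨?_, ?_, F' V * D, ?_, ?_⟩
    · intro j hj
      rcases Nat.lt_succ_iff_lt_or_eq.mp hj with h | h
      · exact (hb j h).trans (le_max_left _ _)
      · rw [h]; exact hVM.trans (le_max_right _ _)
    · rw [Function.iterate_succ', Function.comp_apply, Function.iterate_succ',
        Function.comp_apply, ← hV, ← hv]
      have e1 : F V - (v ^ 2 + c₀) = (F V - (V ^ 2 + c₀)) + (V - v) * (V + v) := by ring
      calc ‖F V - (v ^ 2 + c₀)‖ = ‖(F V - (V ^ 2 + c₀)) + (V - v) * (V + v)‖ := by rw [e1]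
        _ ≤ ‖F V - (V ^ 2 + c₀)‖ + ‖(V - v) * (V + v)‖ := norm_add_le _ _
        _ ≤ ε' + ε' * (2 * |M| + 1) := by
            refine add_le_add q2' ?_
            rw [norm_mul]
            refine mul_le_mul hc ((norm_add_le _ _).trans ?_) (norm_nonneg _) hε'0.le
            linarith
        _ = ε' * (2 * |M| + 2) := by ring
        _ ≤ ε' * A := mul_le_mul_of_nonneg_left (by linarith) hε'0.le
        _ ≤ ε := by linarith
    · rw [Function.iterate_succ']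
      exact q1.comp U hD
    · rw [deriv_succ, ← hv, ← hE]
      have e1 : F' V * D - 2 * v * E = (F' V - 2 * V) * D + 2 * (V - v) * D + 2 * v * (D - E) := by
        ring
      have hDn : ‖D‖ ≤ |N| + 1 := by
        calc ‖D‖ = ‖(D - E) + E‖ := by ring_nf
          _ ≤ ‖D - E‖ + ‖E‖ := norm_add_le _ _
          _ ≤ 1 + |N| := add_le_add (hDc.trans hε'1) hNU
          _ = _ := by ring
      have n1 : ‖(F' V - 2 * V) * D‖ ≤ ε' * (|N| + 1) := by
        rw [norm_mul]; exact mul_le_mul q3' hDn (norm_nonneg _) hε'0.le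
      have n2 : ‖2 * (V - v) * D‖ ≤ 2 * ε' * (|N| + 1) := by
        rw [norm_mul, norm_mul, Complex.norm_ofNat]
        exact mul_le_mul (by linarith [hc]) hDn (norm_nonneg _) (by positivity)
      have n3 : ‖2 * v * (D - E)‖ ≤ 2 * |M| * ε' := by
        rw [norm_mul, norm_mul, Complex.norm_ofNat]
        exact mul_le_mul (by linarith [hMU]) hDc (norm_nonneg _) (by positivity)
      calc ‖F' V * D - 2 * v * E‖
          = ‖(F' V - 2 * V) * D + 2 * (V - v) * D + 2 * v * (D - E)‖ := by rw [e1]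
        _ ≤ ‖(F' V - 2 * V) * D‖ + ‖2 * (V - v) * D‖ + ‖2 * v * (D - E)‖ := norm_add₃_le
        _ ≤ ε' * (|N| + 1) + 2 * ε' * (|N| + 1) + 2 * |M| * ε' := by linarith
        _ = ε' * (3 * |N| + 3 + 2 * |M|) := by ring
        _ ≤ ε' * (4 * A) := mul_le_mul_of_nonneg_left (by rw [hA]; linarith) hε'0.le
        _ = 4 * (ε' * A) := by ring
        _ ≤ ε := by linarith

theorem t_att (hst : St_step) : St_att := by
  intro r g y a d B hN c₀ hQ
  obtain ⟨z₀, p, hp, hfix, hder, hlim⟩ := hQ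
  have hay : a * y ≠ 0 := mul_ne_zero hN.ha hN.hy
  have hay0 : 0 < ‖a * y‖ := norm_pos_iff.mpr hay
  obtain ⟨q, hq1, hq2⟩ := exists_between hder
  have hq0 : 0 ≤ q := (norm_nonneg _).trans hq1.le
  have hcd : ContinuousAt (fun U => ‖deriv (fun z : ℂ => z ^ 2 + c₀)^[p] U‖) z₀ :=
    ((contdf c₀ p).norm).continuousAt
  obtain ⟨δ₁, hδ₁, h1⟩ := Metric.eventually_nhds_iff_ball.mp (hcd.eventually (gt_mem_nhds hq1))
  set δ₀ : ℝ := δ₁ / 2 with hδ₀
  have hδ₀0 : 0 < δ₀ := by positivity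
  have hball : ∀ U ∈ closedBall z₀ δ₀, ‖deriv (fun z : ℂ => z ^ 2 + c₀)^[p] U‖ ≤ q :=
    fun U hU => (h1 U (closedBall_subset_ball (by rw [hδ₀]; linarith) hU)).le
  obtain ⟨k, hk1, hk⟩ : ∃ k : ℕ, 1 ≤ k ∧
      ‖(fun z : ℂ => z ^ 2 + c₀)^[p * k] 0 - z₀‖ < δ₀ / 4 := by
    obtain ⟨k, hk⟩ := (Metric.tendsto_atTop.mp hlim) (δ₀ / 4) (by positivity)
    refine ⟨k + 1, by omega, ?_⟩
    have := hk (k + 1) (by omega)
    rwa [dist_eq_norm] at this
  obtain ⟨m, hm⟩ : ∃ m : ℕ, p * k = m + 1 :=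
    Nat.exists_eq_succ_of_ne_zero (Nat.mul_ne_zero (by omega) (by omega))
  have hfm : (fun z : ℂ => z ^ 2 + c₀)^[m] c₀ = (fun z : ℂ => z ^ 2 + c₀)^[p * k] 0 := by
    rw [hm, Function.iterate_succ_apply]
    simp
  obtain ⟨δ₂, hδ₂, h2⟩ := Metric.continuousAt_iff.mp
    ((contf c₀ m).continuousAt (x := c₀)) (δ₀ / 4) (by positivity)
  set ε : ℝ := min (δ₀ / 4) (min ((1 - q) / 2) ((1 - q) * δ₀ / 4)) with hε
  have hq3 : 0 < 1 - q := by linarith
  have hε0 : 0 < ε := lt_min (by positivity) (lt_min (by positivity) (by positivity))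
  have hε1 : ε ≤ δ₀ / 4 := min_le_left _ _
  have hε2 : ε ≤ (1 - q) / 2 := (min_le_right _ _).trans (min_le_left _ _)
  have hε3 : ε ≤ (1 - q) * δ₀ / 4 := (min_le_right _ _).trans (min_le_right _ _)
  obtain ⟨K₁, η₁, hη₁, hi1⟩ := iter_close c₀ (‖z₀‖ + δ₀) p ε hε0
  obtain ⟨K₂, η₂, hη₂, hi2⟩ := iter_close c₀ (‖c₀‖ + 1) m ε hε0
  set η : ℝ := min η₁ η₂ with hη
  have hη0 : 0 < η := lt_min hη₁ hη₂
  set K : ℝ := max (max K₁ K₂) (‖c₀‖ + 1) with hK
  obtain ⟨n₁, hn₁⟩ := hst r g y a d B hN K (η / 2) (by positivity)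
  refine ⟨min (δ₂ / 2) (min (η / 2) 1) / ‖a * y‖, by positivity, max n₁ 1, fun n hn x hx => ?_⟩
  have hn1 : n₁ ≤ n := (le_max_left _ _).trans hn
  have hn0 : 1 ≤ n := (le_max_right _ _).trans hn
  have hnR : (0 : ℝ) < n := by exact_mod_cast hn0
  have hnC : (n : ℂ) ≠ 0 := by exact_mod_cast (by omega : n ≠ 0)
  set β : ℂ := n * (a * y) with hβ
  have hβ0 : β ≠ 0 := mul_ne_zero hnC hay
  have hβn : ‖β‖ = n * ‖a * y‖ := by rw [hβ, norm_mul, Complex.norm_natCast]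
  have hβp : 0 < ‖β‖ := norm_pos_iff.mpr hβ0
  set c : ℂ := β * (x - y) with hc
  have hxc : x = y + c / β := by rw [hc]; field_simp; ring
  have hcc : ‖c - c₀‖ ≤ min (δ₂ / 2) (min (η / 2) 1) := by
    have e1 : c - c₀ = β * (x - (y + c₀ / β)) := by rw [hc]; field_simp; ring
    rw [e1, norm_mul, hβn]
    rw [mem_closedBall, dist_eq_norm] at hx
    calc n * ‖a * y‖ * ‖x - (y + c₀ / β)‖
        ≤ n * ‖a * y‖ * (min (δ₂ / 2) (min (η / 2) 1) / ‖a * y‖ / n) :=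
          mul_le_mul_of_nonneg_left hx (by positivity)
      _ = _ := by field_simp
  have hcc1 : ‖c - c₀‖ ≤ δ₂ / 2 := hcc.trans (min_le_left _ _)
  have hcc2 : ‖c - c₀‖ ≤ η / 2 := hcc.trans ((min_le_right _ _).trans (min_le_left _ _))
  have hcc3 : ‖c - c₀‖ ≤ 1 := hcc.trans ((min_le_right _ _).trans (min_le_right _ _))
  have hcn : ‖c‖ ≤ ‖c₀‖ + 1 := by
    calc ‖c‖ = ‖(c - c₀) + c₀‖ := by ring_nf
      _ ≤ ‖c - c₀‖ + ‖c₀‖ := norm_add_le _ _
      _ ≤ _ := by linarith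
  have hst' := fun U hU => hn₁ n hn1 c U (hcn.trans (le_max_right _ _)) hU
  rw [← hβ, ← hxc] at hst'
  set W : ℂ → ℂ := fun w => x * r w ^ n with hW
  set F : ℂ → ℂ := fun U => β * (x * r (y + U / β) ^ n - y) with hF
  set F' : ℂ → ℂ := fun U => x * (n * r (y + U / β) ^ n * g (y + U / β)) with hF'
  have hFF : ∀ U : ℂ, ‖U‖ ≤ K → HasDerivAt F (F' U) U ∧ ‖F U - (U ^ 2 + c₀)‖ ≤ η ∧
      ‖F' U - 2 * U‖ ≤ η := by
    intro U hU
    obtain ⟨s1, s2, s3, s4, s5⟩ := hst' U hU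
    refine ⟨?_, ?_, ?_⟩
    · have d1 := hN.r_der (U / β) s1
      have d2 : HasDerivAt (fun U : ℂ => y + U / β) (1 / β) U := by
        simpa using ((hasDerivAt_id U).div_const β).const_add y
      have d3 := d1.comp U d2
      have d4 := (((d3.pow n).const_mul x).sub_const y).const_mul β
      have e : β * (x * (↑n * (r ∘ fun U => y + U / β) U ^ (n - 1) *
          (g (y + U / β) * r (y + U / β) * (1 / β)))) = F' U := by
        obtain ⟨n', rfl⟩ : ∃ n', n = n' + 1 := ⟨n - 1, by omega⟩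
        simp only [Function.comp_apply, Nat.add_sub_cancel, hF']
        generalize y + U / β = w at *
        field_simp
        ring
      rw [e] at d4
      exact d4
    · have e1 : F U - (U ^ 2 + c₀) = (F U - (U ^ 2 + c)) + (c - c₀) := by ring
      rw [e1]
      calc _ ≤ ‖F U - (U ^ 2 + c)‖ + ‖c - c₀‖ := norm_add_le _ _
        _ ≤ η / 2 + η / 2 := add_le_add s3 hcc2
        _ = η := by ring
    · exact s4.trans (by linarith)
  have hconj1 : ∀ U : ℂ, W (y + U / β) = y + F U / β := by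
    intro U
    simp only [hW, hF]
    field_simp
    ring
  have hconj : ∀ (i : ℕ) (U : ℂ), W^[i] (y + U / β) = y + F^[i] U / β := by
    intro i
    induction i with
    | zero => intro U; rfl
    | succ i ih =>
      intro U
      rw [Function.iterate_succ_apply, hconj1, ih, Function.iterate_succ_apply]
  have horb : ∀ j : ℕ, orb r n x j = y + F^[j] c / β := by
    intro j
    induction j with
    | zero => exact hxc
    | succ j ih =>
      rw [Function.iterate_succ_apply', ← hconj1, ← ih]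
      rfl
  have hK1 : K₁ ≤ K := (le_max_left _ _).trans (le_max_left _ _)
  have hK2 : K₂ ≤ K := (le_max_right _ _).trans (le_max_left _ _)
  have hI1 := hi1 F F' (fun U hU => by
    obtain ⟨t1, t2, t3⟩ := hFF U (hU.trans hK1)
    exact ⟨t1, t2.trans (min_le_left _ _), t3.trans (min_le_left _ _)⟩)
  have hI2 := hi2 F F' (fun U hU => by
    obtain ⟨t1, t2, t3⟩ := hFF U (hU.trans hK2)
    exact ⟨t1, t2.trans (min_le_right _ _), t3.trans (min_le_right _ _)⟩) c hcn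
  have hzn : ∀ U ∈ closedBall z₀ δ₀, ‖U‖ ≤ ‖z₀‖ + δ₀ := by
    intro U hU
    rw [mem_closedBall, dist_eq_norm] at hU
    calc ‖U‖ = ‖(U - z₀) + z₀‖ := by ring_nf
      _ ≤ ‖U - z₀‖ + ‖z₀‖ := norm_add_le _ _
      _ ≤ _ := by linarith
  -- `F^[p]` is a contraction of the disc
  have hlip : ∀ U ∈ closedBall z₀ δ₀, ∀ V ∈ closedBall z₀ δ₀,
      ‖F^[p] U - F^[p] V‖ ≤ (1 + q) / 2 * ‖U - V‖ := by
    have hd : ∀ U ∈ closedBall z₀ δ₀, ∃ D : ℂ, HasDerivAt F^[p] D U ∧ ‖D‖ ≤ (1 + q) / 2 := by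
      intro U hU
      obtain ⟨-, -, D, hD, hDD⟩ := hI1 U (hzn U hU)
      refine ⟨D, hD, ?_⟩
      calc ‖D‖ = ‖(D - deriv (fun z : ℂ => z ^ 2 + c₀)^[p] U) +
            deriv (fun z : ℂ => z ^ 2 + c₀)^[p] U‖ := by rw [sub_add_cancel]
        _ ≤ _ := norm_add_le _ _
        _ ≤ ε + q := add_le_add hDD (hball U hU)
        _ ≤ _ := by linarith
    choose! D hD1 hD2 using hd
    intro U hU V hV
    exact (convex_closedBall z₀ δ₀).norm_image_sub_le_of_norm_hasDerivWithin_le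
      (fun x hx => (hD1 x hx).hasDerivWithinAt) hD2 hV hU
  have hz0 : z₀ ∈ closedBall z₀ δ₀ := mem_closedBall_self hδ₀0.le
  have hzf : ‖F^[p] z₀ - z₀‖ ≤ ε := by
    have := (hI1 z₀ (hzn z₀ hz0)).2.1
    rwa [hfix] at this
  have hinto : ∀ U ∈ closedBall z₀ δ₀, ‖F^[p] U - z₀‖ < δ₀ := by
    intro U hU
    have h3 := hlip U hU z₀ hz0
    rw [mem_closedBall, dist_eq_norm] at hU
    calc ‖F^[p] U - z₀‖ = ‖(F^[p] U - F^[p] z₀) + (F^[p] z₀ - z₀)‖ := by ring_nf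
      _ ≤ _ := norm_add_le _ _
      _ ≤ (1 + q) / 2 * ‖U - z₀‖ + ε := add_le_add h3 hzf
      _ ≤ (1 + q) / 2 * δ₀ + (1 - q) * δ₀ / 4 :=
          add_le_add (mul_le_mul_of_nonneg_left hU (by positivity)) hε3
      _ < δ₀ := by nlinarith
  -- rescaling
  have hres : ∀ w ∈ closedBall (y + z₀ / β) (δ₀ / ‖β‖), ∃ U ∈ closedBall z₀ δ₀,
      w = y + U / β := by
    intro w hw
    refine ⟨β * (w - y), ?_, by field_simp; ring⟩
    rw [mem_closedBall, dist_eq_norm] at hw ⊢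
    have e1 : β * (w - y) - z₀ = β * (w - (y + z₀ / β)) := by field_simp; ring
    rw [e1, norm_mul]
    calc ‖β‖ * ‖w - (y + z₀ / β)‖ ≤ ‖β‖ * (δ₀ / ‖β‖) := mul_le_mul_of_nonneg_left hw hβp.le
      _ = δ₀ := by field_simp
  refine ⟨m, p, y + z₀ / β, δ₀ / ‖β‖, (1 + q) / 2, hp, by positivity, by positivity,
    by linarith, ?_, ?_, ?_, ?_, ?_⟩
  · intro j hj
    rw [horb j]
    exact (hst' _ ((hI2.1 j hj).trans hK2)).2.1
  · rw [horb m, mem_closedBall, dist_eq_norm]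
    have e1 : y + F^[m] c / β - (y + z₀ / β) = (F^[m] c - z₀) / β := by ring
    rw [e1, norm_div]
    refine div_le_div_of_nonneg_right ?_ hβp.le
    have h3 := hI2.2.1
    have h4 : dist ((fun z : ℂ => z ^ 2 + c₀)^[m] c) ((fun z : ℂ => z ^ 2 + c₀)^[m] c₀) <
        δ₀ / 4 := h2 (by rw [dist_eq_norm]; linarith)
    rw [dist_eq_norm, hfm] at h4
    have e2 : F^[m] c - z₀ = (F^[m] c - (fun z : ℂ => z ^ 2 + c₀)^[m] c) +
        ((fun z : ℂ => z ^ 2 + c₀)^[m] c - (fun z : ℂ => z ^ 2 + c₀)^[p * k] 0) +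
        ((fun z : ℂ => z ^ 2 + c₀)^[p * k] 0 - z₀) := by ring
    rw [e2]
    refine norm_add₃_le.trans ?_
    linarith
  · intro w hw i hi
    obtain ⟨U, hU, rfl⟩ := hres w hw
    rw [hconj i U]
    exact (hst' _ (((hI1 U (hzn U hU)).1 i hi).trans hK1)).2.1
  · intro w hw
    obtain ⟨U, hU, rfl⟩ := hres w hw
    rw [hconj p U, mem_ball, dist_eq_norm]
    have e1 : y + F^[p] U / β - (y + z₀ / β) = (F^[p] U - z₀) / β := by ring
    rw [e1, norm_div]
    exact div_lt_div_of_pos_right (hinto U hU) hβp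
  · intro w hw w' hw'
    obtain ⟨U, hU, rfl⟩ := hres w hw
    obtain ⟨V, hV, rfl⟩ := hres w' hw'
    rw [hconj p U, hconj p V]
    have e1 : y + F^[p] U / β - (y + F^[p] V / β) = (F^[p] U - F^[p] V) / β := by ring
    have e2 : y + U / β - (y + V / β) = (U - V) / β := by ring
    rw [e1, e2, norm_div, norm_div, ← mul_div_assoc]
    exact div_le_div_of_nonneg_right (hlip U hU V hV) hβp.le

end Pool.Agent.K3h12.CR
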